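import Mathlib
import Pool.Agent.Helper93.EKR4

open Finset

namespace Pool.Agent.Results.MP_cd9ed6_co.LocalizedEKR

/-- `i_F(A)`: the least value of `|A ∩ B|` as `B` ranges over `F`. -/
noncomputable def iF {n : ℕ} (F : Finset (Finset (Fin n))) (A : Finset (Fin n)) : ℕ :=
  sInf {m : ℕ | ∃ B ∈ F, m = (A ∩ B).card}

/-- `Φ_{n,k}(F) = ∑_{A ∈ F} 1 / C(n - j, k - j)`, where `j = i_F(A)`. -/
noncomputable def Phi (n k : ℕ) (F : Finset (Finset (Fin n))) : ℝ :=
  ∑ A ∈ F, 1 / ((n - iF F A).choose (k - iF F A) : ℝ)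

/-- `N_k = k + ⌈k/2⌉ (⌊k/2⌋ + 1)`. -/
def Nk (k : ℕ) : ℕ := k + (k + 1) / 2 * (k / 2 + 1)

open Pool.Agent.Helper93.EKR

lemma prod_le (k c : ℕ) (hc : c < k) : (c + 1) * (k - c) ≤ (k + 1) / 2 * (k / 2 + 1) := by
  obtain ⟨y, hy⟩ : ∃ y, k = c + 1 + y := ⟨k - c - 1, by omega⟩
  have h1 : k - c = y + 1 := by omega
  rw [h1]
  rcases Nat.even_or_odd' k with ⟨m, hm | hm⟩
  · have e1 : (k + 1) / 2 = m := by omega
    have e2 : k / 2 = m := by omega
    rw [e1, e2]
    have hsum : (c + 1) + (y + 1) = 2 * m + 1 := by omega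
    zify at hsum ⊢
    rcases le_or_gt ((c : ℤ) + 1) m with h | h
    · nlinarith
    · have h' : (m : ℤ) + 1 ≤ c + 1 := by linarith
      nlinarith
  · have e1 : (k + 1) / 2 = m + 1 := by omega
    have e2 : k / 2 = m := by omega
    rw [e1, e2]
    have hsum : (c + 1) + (y + 1) = 2 * m + 2 := by omega
    zify at hsum ⊢
    nlinarith [sq_nonneg ((c : ℤ) - y)]

/-- For every `k`, every `n ≥ N_k` and every family `F` of `k`-element subsets of `[n]`,
`Φ_{n,k}(F) ≤ 1`. -/
theorem result (k n : ℕ) (hn : Nk k ≤ n) (F : Finset (Finset (Fin n)))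
    (hF : ∀ A ∈ F, A.card = k) : Phi n k F ≤ 1 := by
  classical
  unfold Nk at hn
  set N : ℕ := n - k with hNdef
  have hnN : n = N + k := by omega
  set K := powersetCard k (univ : Finset (Fin n)) with hK
  have hFK : F ⊆ K := fun A hA => mem_powersetCard.2 ⟨subset_univ _, hF A hA⟩
  set j : Finset (Fin n) → ℕ := fun A => iF F A with hj
  have hjle : ∀ A, ∀ B ∈ F, j A ≤ (A ∩ B).card := fun A B hB => Nat.sInf_le ⟨B, hB, rfl⟩
  have hjk : ∀ A ∈ F, j A ≤ k := by
    intro A hA
    have := hjle A A hA
    rwa [inter_self, hF A hA] at this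
  set α : Finset (Fin n) → ℝ := fun A => 1 / ((n - j A).choose (k - j A) : ℝ) with hα
  have hPhi : Phi n k F = ∑ A ∈ F, α A := rfl
  have hchpos : ∀ A ∈ F, (0 : ℝ) < ((n - j A).choose (k - j A) : ℝ) := by
    intro A hA
    have := hjk A hA
    have := Nat.choose_pos (show k - j A ≤ n - j A by omega)
    exact_mod_cast this
  set u : ℕ → Finset (Fin n) → ℝ := fun c A => if A ∈ F ∧ j A ≤ c then α A else 0 with hu
  have hu1 : ∀ c A, A ∈ F → j A ≤ c → u c A = α A := fun c A h1 h2 => if_pos ⟨h1, h2⟩
  have hu0 : ∀ c A, ¬ (A ∈ F ∧ j A ≤ c) → u c A = 0 := fun c A h => if_neg h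
  set f : Finset (Fin n) → Finset (Fin n) → ℕ → ℝ := fun A B c => om N k (k - c) (A \ B).card
    with hf
  have hQ : ∀ c ∈ range k, 0 ≤ ∑ A ∈ K, ∑ B ∈ K, u c A * (f A B c - f A B (c + 1)) * u c B := by
    intro c hc
    rw [mem_range] at hc
    have := diff_psd N k c (k - c) (by omega) (by omega) hnN (by
      have := prod_le k c hc
      omega) (u c)
    exact this
  have hsum := sum_nonneg hQ
  -- rewrite the sum
  have hterm : ∀ A ∈ F, ∀ B ∈ F,
      ∑ c ∈ range k, (if max (j A) (j B) ≤ c then (f A B c - f A B (c + 1)) else 0) =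
        (if A = B then ((n - j A).choose (k - j A) : ℝ) else 0) - 1 := by
    intro A hA B hB
    set m := max (j A) (j B) with hm
    have hmk : m ≤ k := max_le (hjk A hA) (hjk B hB)
    have htel : ∑ c ∈ range k, (if m ≤ c then (f A B c - f A B (c + 1)) else 0) =
        f A B m - f A B k := by
      rw [← sum_filter]
      have h1 : (range k).filter (fun c => m ≤ c) = Ico m k := by
        ext c; simp only [mem_filter, mem_range, mem_Ico]; omega
      rw [h1]
      have h2 := sum_Ico_sub (f A B) hmk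
      have h3 : ∑ c ∈ Ico m k, (f A B c - f A B (c + 1)) =
          - ∑ c ∈ Ico m k, (f A B (c + 1) - f A B c) := by
        rw [← sum_neg_distrib]
        refine sum_congr rfl fun c _ => ?_
        ring
      rw [h3, h2]; ring
    rw [htel]
    have hfk : f A B k = 1 := by
      simp only [hf, Nat.sub_self]
      apply om_zero
      rw [← hF A hA]; exact card_le_card sdiff_subset
    rw [hfk]
    congr 1
    simp only [hf]
    by_cases hAB : A = B
    · subst hAB
      have hmj : m = j A := by rw [hm]; exact max_self _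
      have hd0 : (A \ A).card = 0 := by simp
      rw [if_pos rfl, hd0, om_diag, hmj]
      have : N + (k - j A) = n - j A := by
        have := hjk A hA
        omega
      rw [this]
    · rw [if_neg hAB]
      apply om_eq_zero
      · rw [Nat.pos_iff_ne_zero]
        intro h0
        exact hAB ((sdiff_card_zero_iff (hFK hA) (hFK hB)).1 h0)
      · have h1 := card_sdiff_add_card_inter A B
        rw [hF A hA] at h1
        have h2 := hjle A B hB
        have h3 := hjle B A hA
        rw [inter_comm B A] at h3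
        have h4 : m ≤ (A ∩ B).card := max_le h2 h3
        omega
  have hexp : ∑ c ∈ range k, ∑ A ∈ K, ∑ B ∈ K, u c A * (f A B c - f A B (c + 1)) * u c B =
      ∑ A ∈ F, ∑ B ∈ F, α A * α B *
        ((if A = B then ((n - j A).choose (k - j A) : ℝ) else 0) - 1) := by
    have h1 : ∀ c ∈ range k, ∑ A ∈ K, ∑ B ∈ K, u c A * (f A B c - f A B (c + 1)) * u c B =
        ∑ A ∈ F, ∑ B ∈ F, α A * α B *
          (if max (j A) (j B) ≤ c then (f A B c - f A B (c + 1)) else 0) := by
      intro c _
      rw [← sum_subset hFK (f := fun A => ∑ B ∈ K, u c A * (f A B c - f A B (c + 1)) * u c B)]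
      · refine sum_congr rfl fun A hA => ?_
        rw [← sum_subset hFK (f := fun B => u c A * (f A B c - f A B (c + 1)) * u c B)]
        · refine sum_congr rfl fun B hB => ?_
          by_cases h1 : j A ≤ c
          · by_cases h2 : j B ≤ c
            · rw [hu1 c A hA h1, hu1 c B hB h2, if_pos (max_le h1 h2)]; ring
            · rw [hu0 c B (fun h => h2 h.2), if_neg (fun h => h2 ((le_max_right _ _).trans h))]
              ring
          · rw [hu0 c A (fun h => h1 h.2), if_neg (fun h => h1 ((le_max_left _ _).trans h))]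
            ring
        · intro B _ hB
          rw [hu0 c B (fun h => hB h.1)]
          ring
      · intro A _ hA
        apply sum_eq_zero
        intro B _
        rw [hu0 c A (fun h => hA h.1)]
        ring
    rw [sum_congr rfl h1, sum_comm]
    refine sum_congr rfl fun A hA => ?_
    rw [sum_comm]
    refine sum_congr rfl fun B hB => ?_
    rw [← mul_sum, hterm A hA B hB]
  rw [hexp] at hsum
  have hval : ∑ A ∈ F, ∑ B ∈ F, α A * α B *
        ((if A = B then ((n - j A).choose (k - j A) : ℝ) else 0) - 1) =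
      (∑ A ∈ F, α A) - (∑ A ∈ F, α A) ^ 2 := by
    have h1 : ∀ A ∈ F, ∑ B ∈ F, α A * α B *
        ((if A = B then ((n - j A).choose (k - j A) : ℝ) else 0) - 1) =
        α A - α A * ∑ B ∈ F, α B := by
      intro A hA
      have h2 : ∀ B ∈ F, α A * α B *
        ((if A = B then ((n - j A).choose (k - j A) : ℝ) else 0) - 1) =
        (if A = B then α A * α B * ((n - j A).choose (k - j A) : ℝ) else 0) - α A * α B := by
        intro B _
        split_ifs <;> ring
      rw [sum_congr rfl h2, sum_sub_distrib, sum_ite_eq, if_pos hA, ← mul_sum]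
      congr 1
      have := (hchpos A hA).ne'
      simp only [hα]
      field_simp
    rw [sum_congr rfl h1, sum_sub_distrib, ← sum_mul, sq]
  rw [hval] at hsum
  rw [hPhi]
  nlinarith [hsum, sq_nonneg (∑ A ∈ F, α A - 1)]

end Pool.Agent.Results.MP_cd9ed6_co.LocalizedEKR
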